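import Pool.Agent.Lib.MP_ec2323_pr.Cone

/-!
# MP_ec2323_pr: total variation bounds and the spectral gap of the cone over the Hamming graph
-/

set_option autoImplicit false

open Filter Topology Finset

namespace Pool.Agent.MP_ec2323_pr

section General

variable {V : Type} [Fintype V] [DecidableEq V] (G : SimpleGraph V) [DecidableRel G.Adj]

theorem stat_mul_jump (x y : V) :
    statDist G x * jumpMatrix G x y = if G.Adj x y then (2 * (G.edgeFinset.card : ℝ))⁻¹ else 0 := by
  unfold statDist jumpMatrix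
  rw [Matrix.of_apply]
  split_ifs with h
  · have hd : (G.degree x : ℝ) ≠ 0 := by
      have : 0 < G.degree x := (G.degree_pos_iff_exists_adj x).2 ⟨y, h⟩
      positivity
    field_simp
  · ring

/-- The stationary distribution is stationary. -/
theorem stat_generator (y : V) : ∑ x, statDist G x * generator G x y = 0 := by
  unfold generator
  simp only [Matrix.sub_apply, mul_sub, Finset.sum_sub_distrib, stat_mul_jump]
  have h1 : ∑ x, (if G.Adj x y then (2 * (G.edgeFinset.card : ℝ))⁻¹ else 0) = statDist G y := by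
    unfold statDist
    rw [degree_eq_sum, div_eq_mul_inv, Finset.sum_mul]
    refine Finset.sum_congr rfl (fun x _ => ?_)
    simp only [G.adj_comm y x]
    split_ifs <;> ring
  rw [h1]
  simp [Matrix.one_apply]

theorem stat_eigen {f : V → ℝ} {μ : ℝ} (hμ : 0 < μ)
    (h : (generator G).mulVec f = (-μ) • f) : ∑ x, statDist G x * f x = 0 := by
  have h1 : ∑ x, statDist G x * (generator G).mulVec f x = 0 := by
    simp only [Matrix.mulVec, dotProduct, Finset.mul_sum]
    rw [Finset.sum_comm]
    refine Finset.sum_eq_zero (fun y _ => ?_)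
    have := stat_generator G y
    calc ∑ x, statDist G x * (generator G x y * f y)
        = (∑ x, statDist G x * generator G x y) * f y := by
          rw [Finset.sum_mul]; refine Finset.sum_congr rfl (fun x _ => by ring)
      _ = 0 := by rw [this, zero_mul]
  rw [h] at h1
  have h2 : ∑ x, statDist G x * ((-μ) • f) x = (-μ) * ∑ x, statDist G x * f x := by
    rw [Finset.mul_sum]
    refine Finset.sum_congr rfl (fun x _ => ?_)
    simp only [Pi.smul_apply, smul_eq_mul]; ring
  rw [h2] at h1
  rcases mul_eq_zero.1 h1 with h3 | h3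
  · linarith
  · exact h3

end General

section Cone

variable {d q : ℕ}

theorem row_sub_some (hq : 0 < q) (x y : Fin d → Fin q) (t : ℝ) :
    heatKernel (cone d q) t (some x) (some y) - statDist (cone d q) (some y)
      = Real.exp (-(t / (DD d q + 1))) *
        (KK d q (Real.exp (-(q : ℝ) * (t / (DD d q + 1)))) x y - (NN d q)⁻¹)
        + Real.exp (-((DD d q + 2) * (t / (DD d q + 1)))) / (NN d q * (DD d q + 2)) := by
  rw [heat_row hq, stat_some hq]
  simp only [rowF]
  ring

theorem row_sub_none (hq : 0 < q) (x : Fin d → Fin q) (t : ℝ) :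
    heatKernel (cone d q) t (some x) none - statDist (cone d q) none
      = -(Real.exp (-((DD d q + 2) * (t / (DD d q + 1)))) / (DD d q + 2)) := by
  rw [heat_row hq, stat_none hq]
  simp only [rowF]
  ring

theorem exp_le_one_of {a : ℝ} (ha : 0 ≤ a) : Real.exp (-a) ≤ 1 := by
  rw [Real.exp_le_one_iff]; linarith

theorem sum_const_NN (hq : 0 < q) (c : ℝ) :
    ∑ _y : Fin d → Fin q, c / (NN d q * (DD d q + 2)) = c / (DD d q + 2) := by
  have hN0 := NN_pos (d := d) hq
  have hD0 := DD_nonneg (d := d) hq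
  rw [Finset.sum_const, nsmul_eq_mul, Finset.card_univ]
  simp only [Fintype.card_pi, Fintype.card_fin, prod_const, card_univ, Nat.cast_pow]
  have : ((q : ℝ) ^ d) = NN d q := rfl
  rw [this]
  field_simp

theorem tv_upper (hq : 0 < q) (x : Fin d → Fin q) {t : ℝ} (ht : 0 ≤ t) :
    tvDist (cone d q) (some x) t
      ≤ Real.exp (-(t / (DD d q + 1))) + 1 / (DD d q + 2) := by
  have hN0 := NN_pos (d := d) hq
  have hD0 := DD_nonneg (d := d) hq
  set s := t / (DD d q + 1) with hs
  have hs0 : 0 ≤ s := by positivity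
  have hδ0 : 0 ≤ Real.exp (-(q : ℝ) * s) := (Real.exp_pos _).le
  have hδ1 : Real.exp (-(q : ℝ) * s) ≤ 1 := by
    rw [neg_mul]; exact exp_le_one_of (by positivity)
  have hE1 : Real.exp (-((DD d q + 2) * s)) ≤ 1 := exp_le_one_of (by positivity)
  have hE0 : 0 ≤ Real.exp (-((DD d q + 2) * s)) := (Real.exp_pos _).le
  unfold tvDist
  rw [Fintype.sum_option]
  simp only [row_sub_some hq, row_sub_none hq, ← hs]
  have h1 : ∀ y ∈ (univ : Finset (Fin d → Fin q)),
      |Real.exp (-s) * (KK d q (Real.exp (-(q : ℝ) * s)) x y - (NN d q)⁻¹)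
        + Real.exp (-((DD d q + 2) * s)) / (NN d q * (DD d q + 2))|
      ≤ Real.exp (-s) * |KK d q (Real.exp (-(q : ℝ) * s)) x y - (NN d q)⁻¹|
        + Real.exp (-((DD d q + 2) * s)) / (NN d q * (DD d q + 2)) := by
    intro y _
    refine le_trans (abs_add_le _ _) ?_
    rw [abs_mul, abs_of_nonneg (Real.exp_pos _).le]
    gcongr
    rw [abs_of_nonneg]
    positivity
  have h2 := Finset.sum_le_sum h1
  rw [Finset.sum_add_distrib, ← Finset.mul_sum, sum_const_NN hq] at h2
  have h3 : ∑ y, |KK d q (Real.exp (-(q : ℝ) * s)) x y - (NN d q)⁻¹| ≤ 2 :=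
    sum_abs_KK_le hq hδ0 hδ1 x
  have h4 : Real.exp (-s) * ∑ y, |KK d q (Real.exp (-(q : ℝ) * s)) x y - (NN d q)⁻¹|
      ≤ Real.exp (-s) * 2 := mul_le_mul_of_nonneg_left h3 (Real.exp_pos _).le
  have h5 : |-(Real.exp (-((DD d q + 2) * s)) / (DD d q + 2))|
      = Real.exp (-((DD d q + 2) * s)) / (DD d q + 2) := by
    rw [abs_neg, abs_of_nonneg]; positivity
  have h6 : Real.exp (-((DD d q + 2) * s)) / (DD d q + 2) ≤ 1 / (DD d q + 2) := by
    gcongr
  rw [h5]
  linarith

theorem tv_lower (hq : 2 ≤ q) (x : Fin d → Fin q) {t : ℝ} (ht : 0 ≤ t) :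
    Real.exp (-(t / (DD d q + 1))) *
      (1 - Real.exp (-(d * (Real.exp (-(q : ℝ) * (t / (DD d q + 1)))) ^ 2 / 16)))
      ≤ tvDist (cone d q) (some x) t := by
  have hq0 : 0 < q := by omega
  have hN0 := NN_pos (d := d) hq0
  have hD0 := DD_nonneg (d := d) hq0
  set s := t / (DD d q + 1) with hs
  have hs0 : 0 ≤ s := by positivity
  have hδ0 : 0 ≤ Real.exp (-(q : ℝ) * s) := (Real.exp_pos _).le
  have hδ1 : Real.exp (-(q : ℝ) * s) ≤ 1 := by
    rw [neg_mul]; exact exp_le_one_of (by positivity)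
  have hE0 : 0 ≤ Real.exp (-((DD d q + 2) * s)) := (Real.exp_pos _).le
  unfold tvDist
  rw [Fintype.sum_option]
  simp only [row_sub_some hq0, row_sub_none hq0, ← hs]
  have h1 : ∀ y ∈ (univ : Finset (Fin d → Fin q)),
      Real.exp (-s) * |KK d q (Real.exp (-(q : ℝ) * s)) x y - (NN d q)⁻¹|
        - Real.exp (-((DD d q + 2) * s)) / (NN d q * (DD d q + 2))
      ≤ |Real.exp (-s) * (KK d q (Real.exp (-(q : ℝ) * s)) x y - (NN d q)⁻¹)
        + Real.exp (-((DD d q + 2) * s)) / (NN d q * (DD d q + 2))| := by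
    intro y _
    set A := Real.exp (-s) * (KK d q (Real.exp (-(q : ℝ) * s)) x y - (NN d q)⁻¹) with hA
    set B := Real.exp (-((DD d q + 2) * s)) / (NN d q * (DD d q + 2)) with hB
    have hB0 : 0 ≤ B := by positivity
    have h2 : Real.exp (-s) * |KK d q (Real.exp (-(q : ℝ) * s)) x y - (NN d q)⁻¹| = |A| := by
      rw [hA, abs_mul, abs_of_nonneg (Real.exp_pos _).le]
    rw [h2]
    have h3 : |A| ≤ |A + B| + |B| := by
      have := abs_sub (A + B) B
      rwa [add_sub_cancel_right] at this
    rw [abs_of_nonneg hB0] at h3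
    linarith
  have h2 := Finset.sum_le_sum h1
  rw [Finset.sum_sub_distrib, ← Finset.mul_sum, sum_const_NN hq0] at h2
  have h3 := tv_KK_ge hq hδ0 hδ1 x
  have h4 := mul_le_mul_of_nonneg_left h3 (Real.exp_pos (-s)).le
  have h5 : |-(Real.exp (-((DD d q + 2) * s)) / (DD d q + 2))|
      = Real.exp (-((DD d q + 2) * s)) / (DD d q + 2) := by
    rw [abs_neg, abs_of_nonneg]; positivity
  rw [h5]
  have h6 : ((q : ℝ) ^ d)⁻¹ = (NN d q)⁻¹ := rfl
  rw [h6] at h4
  linarith

/-- `(D+2)/(D+1)` is an eigenvalue, so the set defining the spectral gap is nonempty. -/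
theorem gap_mem (hq : 0 < q) :
    (DD d q + 2) / (DD d q + 1) ∈ {μ : ℝ | 0 < μ ∧ ∃ f : Option (Fin d → Fin q) → ℝ, f ≠ 0 ∧
      (generator (cone d q)).mulVec f = (-μ) • f} := by
  have hN0 := NN_pos (d := d) hq
  have hD0 := DD_nonneg (d := d) hq
  refine ⟨by positivity, ?_⟩
  let f : Option (Fin d → Fin q) → ℝ := fun o => match o with
    | none => -(DD d q + 1)
    | some _ => 1
  have hfn : f none = -(DD d q + 1) := rfl
  have hfs : ∀ y, f (some y) = 1 := fun _ => rfl
  refine ⟨f, ?_, ?_⟩
  · intro h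
    have := congrFun h none
    rw [hfn] at this
    simp only [Pi.zero_apply] at this
    linarith
  · funext o
    simp only [Matrix.mulVec, dotProduct, Pi.smul_apply, smul_eq_mul]
    rw [Fintype.sum_option]
    cases o with
    | none =>
      simp only [gen_none_none, gen_none_some, hfn, hfs, mul_one]
      rw [Finset.sum_const, nsmul_eq_mul, Finset.card_univ]
      simp only [Fintype.card_pi, Fintype.card_fin, prod_const, card_univ, Nat.cast_pow]
      have : ((q : ℝ) ^ d) = NN d q := rfl
      rw [this]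
      field_simp
      ring
    | some x =>
      simp only [gen_some_none hq, gen_some_some hq, hfn, hfs, mul_one]
      rw [Finset.sum_sub_distrib]
      have h1 : ∑ y, (if hammingDist x y = 1 then (DD d q + 1)⁻¹ else 0)
          = DD d q * (DD d q + 1)⁻¹ := by
        have := sum_nbr_one hq x
        unfold DD at this ⊢
        rw [← this, Finset.sum_mul]
        refine Finset.sum_congr rfl (fun y _ => ?_)
        rw [hammingDist_comm x y]
        split_ifs <;> ring
      rw [h1]
      simp only [sum_ite_eq, mem_univ, if_true]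
      field_simp
      ring

theorem row_sub_abs_le (hd : 1 ≤ d) (hq : 0 < q) (x : Fin d → Fin q)
    (y : Option (Fin d → Fin q)) {s : ℝ} (hs : 0 ≤ s) :
    |heatKernel (cone d q) ((DD d q + 1) * s) (some x) y - statDist (cone d q) y|
      ≤ (d + 1) * Real.exp (-((q + 1) * s)) := by
  have hN0 := NN_pos (d := d) hq
  have hD0 := DD_nonneg (d := d) hq
  have hq1 : (1 : ℝ) ≤ q := by exact_mod_cast hq
  have hd1 : (1 : ℝ) ≤ d := by exact_mod_cast hd
  have hN1 : 1 ≤ NN d q := one_le_pow₀ hq1
  have hDq : (q : ℝ) + 1 ≤ DD d q + 2 := by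
    unfold DD; nlinarith
  have hst : (DD d q + 1) * s / (DD d q + 1) = s := by field_simp
  have hE : Real.exp (-((DD d q + 2) * s)) ≤ Real.exp (-((q + 1) * s)) := by
    apply Real.exp_le_exp.2; nlinarith
  have hE0 : 0 ≤ Real.exp (-((q + 1 : ℝ) * s)) := (Real.exp_pos _).le
  cases y with
  | none =>
    rw [row_sub_none hq, hst, abs_neg, abs_of_nonneg (by positivity)]
    calc Real.exp (-((DD d q + 2) * s)) / (DD d q + 2)
        ≤ Real.exp (-((DD d q + 2) * s)) / 1 := by gcongr; linarith
      _ ≤ 1 * Real.exp (-((q + 1) * s)) := by rw [div_one, one_mul]; exact hE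
      _ ≤ (d + 1) * Real.exp (-((q + 1) * s)) := by gcongr; linarith
  | some y =>
    rw [row_sub_some hq, hst]
    have hδ0 : 0 ≤ Real.exp (-(q : ℝ) * s) := (Real.exp_pos _).le
    have hδ1 : Real.exp (-(q : ℝ) * s) ≤ 1 := by
      rw [neg_mul]; exact exp_le_one_of (by positivity)
    refine le_trans (abs_add_le _ _) ?_
    have h1 : |Real.exp (-s) * (KK d q (Real.exp (-(q : ℝ) * s)) x y - (NN d q)⁻¹)|
        ≤ d * Real.exp (-((q + 1) * s)) := by
      rw [abs_mul, abs_of_nonneg (Real.exp_pos _).le]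
      have h2 := abs_KK_sub_le hq hδ0 hδ1 x y
      have h3 : ((q : ℝ) ^ d)⁻¹ = (NN d q)⁻¹ := rfl
      rw [h3] at h2
      calc Real.exp (-s) * |KK d q (Real.exp (-(q : ℝ) * s)) x y - (NN d q)⁻¹|
          ≤ Real.exp (-s) * (d * Real.exp (-(q : ℝ) * s)) := by gcongr
        _ = d * (Real.exp (-s) * Real.exp (-(q : ℝ) * s)) := by ring
        _ = d * Real.exp (-((q + 1) * s)) := by rw [← Real.exp_add]; ring_nf
    have h2 : |Real.exp (-((DD d q + 2) * s)) / (NN d q * (DD d q + 2))|
        ≤ Real.exp (-((q + 1) * s)) := by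
      rw [abs_of_nonneg (by positivity)]
      have h3 : 1 ≤ NN d q * (DD d q + 2) := by nlinarith
      calc Real.exp (-((DD d q + 2) * s)) / (NN d q * (DD d q + 2))
          ≤ Real.exp (-((DD d q + 2) * s)) / 1 := by gcongr
        _ ≤ Real.exp (-((q + 1) * s)) := by rw [div_one]; exact hE
    linarith

theorem gap_lower (hd : 1 ≤ d) (hq : 0 < q) {μ : ℝ}
    (h : μ ∈ {μ : ℝ | 0 < μ ∧ ∃ f : Option (Fin d → Fin q) → ℝ, f ≠ 0 ∧
      (generator (cone d q)).mulVec f = (-μ) • f}) :
    ((q : ℝ) + 1) / (DD d q + 1) ≤ μ := by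
  obtain ⟨hμ, f, hf, hLf⟩ := h
  have hN0 := NN_pos (d := d) hq
  have hD0 := DD_nonneg (d := d) hq
  have : Nonempty (Fin d → Fin q) := ⟨fun _ => ⟨0, hq⟩⟩
  -- some Hamming vertex has a nonzero value
  have hx : ∃ x, f (some x) ≠ 0 := by
    by_contra hcon
    push Not at hcon
    apply hf
    have x0 : Fin d → Fin q := Classical.arbitrary _
    have h1 := congrFun hLf (some x0)
    simp only [Matrix.mulVec, dotProduct, Pi.smul_apply, smul_eq_mul] at h1
    rw [Fintype.sum_option] at h1
    simp only [hcon, mul_zero, Finset.sum_const_zero, add_zero, gen_some_none hq] at h1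
    have h2 : f none = 0 := by
      rcases mul_eq_zero.1 h1 with h3 | h3
      · exfalso
        have : (DD d q + 1)⁻¹ ≠ 0 := by positivity
        exact this h3
      · exact h3
    funext o
    cases o with
    | none => exact h2
    | some x => exact hcon x
  obtain ⟨x, hx⟩ := hx
  have hstat := stat_eigen (cone d q) hμ hLf
  set C : ℝ := (d + 1) * ∑ y, |f y| with hC
  have hC0 : 0 ≤ C := by
    have : 0 ≤ ∑ y, |f y| := Finset.sum_nonneg (fun _ _ => abs_nonneg _)
    positivity
  have key : ∀ s : ℝ, 0 ≤ s →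
      Real.exp (-μ * ((DD d q + 1) * s)) * |f (some x)| ≤ C * Real.exp (-((q + 1) * s)) := by
    intro s hs
    have h1 := exp_mulVec_of_eigen hLf ((DD d q + 1) * s)
    have h2 := congrFun h1 (some x)
    simp only [Pi.smul_apply, smul_eq_mul] at h2
    have h3 : (NormedSpace.exp (((DD d q + 1) * s) • generator (cone d q))).mulVec f (some x)
        = ∑ y, (heatKernel (cone d q) ((DD d q + 1) * s) (some x) y - statDist (cone d q) y)
            * f y := by
      simp only [sub_mul, Finset.sum_sub_distrib, hstat, sub_zero]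
      rfl
    rw [h3] at h2
    calc Real.exp (-μ * ((DD d q + 1) * s)) * |f (some x)|
        = |Real.exp (-μ * ((DD d q + 1) * s)) * f (some x)| := by
          rw [abs_mul, abs_of_nonneg (Real.exp_pos _).le]
      _ = |∑ y, (heatKernel (cone d q) ((DD d q + 1) * s) (some x) y
            - statDist (cone d q) y) * f y| := by rw [h2]
      _ ≤ ∑ y, |(heatKernel (cone d q) ((DD d q + 1) * s) (some x) y
            - statDist (cone d q) y) * f y| := Finset.abs_sum_le_sum_abs _ _
      _ ≤ ∑ y, (d + 1) * Real.exp (-((q + 1) * s)) * |f y| := by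
          refine Finset.sum_le_sum (fun y _ => ?_)
          rw [abs_mul]
          exact mul_le_mul_of_nonneg_right (row_sub_abs_le hd hq x y hs) (abs_nonneg _)
      _ = C * Real.exp (-((q + 1) * s)) := by
          rw [← Finset.mul_sum, hC]; ring
  by_contra hlt
  push Not at hlt
  rw [lt_div_iff₀ (by positivity)] at hlt
  set c : ℝ := (q + 1) - μ * (DD d q + 1) with hc
  have hc0 : 0 < c := by rw [hc]; linarith
  have hfx : 0 < |f (some x)| := abs_pos.2 hx
  have key2 : ∀ s : ℝ, 0 ≤ s → (c * s) * |f (some x)| ≤ C := by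
    intro s hs
    have h1 := key s hs
    have h2 : Real.exp (-μ * ((DD d q + 1) * s)) = Real.exp (c * s) * Real.exp (-((q + 1) * s)) := by
      rw [← Real.exp_add]; congr 1; rw [hc]; ring
    rw [h2] at h1
    have h3 : Real.exp (c * s) * |f (some x)| ≤ C := by
      have h4 : 0 < Real.exp (-((q + 1 : ℝ) * s)) := Real.exp_pos _
      have h5 : Real.exp (c * s) * |f (some x)| * Real.exp (-((q + 1) * s))
          ≤ C * Real.exp (-((q + 1) * s)) := by linarith
      exact le_of_mul_le_mul_right h5 h4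
    have h4 : c * s ≤ Real.exp (c * s) := by
      have := Real.add_one_le_exp (c * s); linarith
    exact le_trans (mul_le_mul_of_nonneg_right h4 hfx.le) h3
  have h1 := key2 ((C + 1) / (c * |f (some x)|)) (by positivity)
  have h2 : c * ((C + 1) / (c * |f (some x)|)) * |f (some x)| = C + 1 := by
    field_simp
  rw [h2] at h1
  linarith

theorem spectralGap_ge (hd : 1 ≤ d) (hq : 0 < q) :
    ((q : ℝ) + 1) / (DD d q + 1) ≤ spectralGap (cone d q) := by
  unfold spectralGap
  exact le_csInf ⟨_, gap_mem hq⟩ (fun μ hμ => gap_lower hd hq hμ)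

theorem relaxTime_le (hd : 1 ≤ d) (hq : 0 < q) :
    relaxTime (cone d q) ≤ (DD d q + 1) / ((q : ℝ) + 1) := by
  have hD0 := DD_nonneg (d := d) hq
  unfold relaxTime
  have h1 := spectralGap_ge hd hq
  have h2 : 0 < ((q : ℝ) + 1) / (DD d q + 1) := by positivity
  calc (spectralGap (cone d q))⁻¹ ≤ (((q : ℝ) + 1) / (DD d q + 1))⁻¹ := by
        gcongr
    _ = (DD d q + 1) / ((q : ℝ) + 1) := by rw [inv_div]

theorem relaxTime_pos (hd : 1 ≤ d) (hq : 0 < q) : 0 < relaxTime (cone d q) := by
  have hD0 := DD_nonneg (d := d) hq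
  unfold relaxTime
  have h1 := spectralGap_ge hd hq
  have h2 : 0 < ((q : ℝ) + 1) / (DD d q + 1) := by positivity
  have h3 : 0 < spectralGap (cone d q) := lt_of_lt_of_le h2 h1
  positivity

end Cone

end Pool.Agent.MP_ec2323_pr
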