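import Mathlib

/-!
# MP_ec2323_pr: the heat kernel of the Hamming graph, in closed form
-/

set_option autoImplicit false

open Filter Topology Finset

namespace Pool.Agent.MP_ec2323_pr

section Hamming

variable {d q : ℕ}

/-- Sum over the Hamming sphere of radius one. -/
theorem sum_nbr (F : (Fin d → Fin q) → ℝ) (y : Fin d → Fin q) :
    ∑ z, (if hammingDist z y = 1 then F z else 0)
      = ∑ i, ∑ b ∈ univ.erase (y i), F (Function.update y i b) := by
  rw [← Finset.sum_filter, Finset.sum_sigma']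
  symm
  refine Finset.sum_bij (fun p _ => Function.update y p.1 p.2) ?_ ?_ ?_ ?_
  · rintro ⟨i, b⟩ hp
    simp only [mem_sigma, mem_univ, mem_erase, ne_eq, and_true, true_and] at hp
    simp only [mem_filter, mem_univ, true_and]
    unfold hammingDist
    rw [Finset.card_eq_one]
    refine ⟨i, ?_⟩
    ext j
    simp only [mem_filter, mem_univ, true_and, mem_singleton]
    by_cases hj : j = i
    · subst hj; simp [hp]
    · simp [hj]
  · rintro ⟨i, b⟩ hp ⟨i', b'⟩ hp' h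
    simp only [mem_sigma, mem_univ, mem_erase, ne_eq, and_true, true_and] at hp hp' h
    by_cases hi : i = i'
    · subst hi
      have := congrFun h i
      simp only [Function.update_self] at this
      rw [this]
    · exfalso
      have := congrFun h i
      simp only [Function.update_self, Function.update_of_ne hi] at this
      exact hp this
  · intro z hz
    simp only [mem_filter, mem_univ, true_and] at hz
    unfold hammingDist at hz
    rw [Finset.card_eq_one] at hz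
    obtain ⟨i, hi⟩ := hz
    have hzi : ∀ j, z j ≠ y j ↔ j = i := by
      intro j
      have : j ∈ (univ.filter fun j => z j ≠ y j) ↔ j ∈ ({i} : Finset (Fin d)) := by rw [hi]
      simpa using this
    refine ⟨⟨i, z i⟩, ?_, ?_⟩
    · simp only [mem_sigma, mem_univ, mem_erase, ne_eq, and_true, true_and]
      exact (hzi i).2 rfl
    · funext j
      by_cases hj : j = i
      · subst hj; simp
      · simp only [Function.update_of_ne hj]
        by_contra hne
        exact hj ((hzi j).1 (fun h => hne h.symm))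
  · intro p _
    rfl

/-- One coordinate of the heat kernel, as a function of `δ = exp (-q s)`. -/
noncomputable def kk (q : ℕ) (δ : ℝ) (a b : Fin q) : ℝ := (1 - δ) / q + if a = b then δ else 0

/-- The heat kernel of the Hamming graph. -/
noncomputable def KK (d q : ℕ) (δ : ℝ) (x y : Fin d → Fin q) : ℝ := ∏ i, kk q δ (x i) (y i)

theorem sum_kk (hq : 0 < q) (δ : ℝ) (a : Fin q) : ∑ b, kk q δ a b = 1 := by
  unfold kk
  rw [Finset.sum_add_distrib]
  simp only [sum_const, card_univ, Fintype.card_fin, nsmul_eq_mul, sum_ite_eq, mem_univ, if_true]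
  have : (q : ℝ) ≠ 0 := by positivity
  field_simp
  ring

theorem kk_nonneg {δ : ℝ} (h0 : 0 ≤ δ) (h1 : δ ≤ 1) (a b : Fin q) : 0 ≤ kk q δ a b := by
  unfold kk
  have : 0 ≤ (1 - δ) / q := div_nonneg (by linarith) (by positivity)
  split_ifs <;> linarith

theorem KK_nonneg {δ : ℝ} (h0 : 0 ≤ δ) (h1 : δ ≤ 1) (x y : Fin d → Fin q) : 0 ≤ KK d q δ x y :=
  Finset.prod_nonneg fun _ _ => kk_nonneg h0 h1 _ _

theorem sum_prod_coord (g : Fin d → Fin q → ℝ) :
    ∑ y : Fin d → Fin q, ∏ i, g i (y i) = ∏ i, ∑ b, g i b := by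
  rw [Finset.prod_univ_sum]
  simp [Fintype.piFinset_univ]

theorem sum_KK (hq : 0 < q) (δ : ℝ) (x : Fin d → Fin q) : ∑ y, KK d q δ x y = 1 := by
  unfold KK
  rw [sum_prod_coord (fun i b => kk q δ (x i) b)]
  simp [sum_kk hq]

theorem KK_update (δ : ℝ) (x y : Fin d → Fin q) (i : Fin d) (b : Fin q) :
    KK d q δ x (Function.update y i b)
      = (∏ j ∈ univ.erase i, kk q δ (x j) (y j)) * kk q δ (x i) b := by
  unfold KK
  rw [← Finset.prod_erase_mul univ _ (mem_univ i)]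
  congr 1
  · refine Finset.prod_congr rfl ?_
    intro j hj
    rw [Function.update_of_ne (Finset.ne_of_mem_erase hj)]
  · rw [Function.update_self]

theorem KK_eq_erase (δ : ℝ) (x y : Fin d → Fin q) (i : Fin d) :
    KK d q δ x y = (∏ j ∈ univ.erase i, kk q δ (x j) (y j)) * kk q δ (x i) (y i) := by
  unfold KK
  rw [← Finset.prod_erase_mul univ _ (mem_univ i)]

theorem sum_nbr_KK (hq : 0 < q) (δ : ℝ) (x y : Fin d → Fin q) :
    ∑ z, (if hammingDist z y = 1 then KK d q δ x z else 0)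
      = ∑ i, (∏ j ∈ univ.erase i, kk q δ (x j) (y j)) * (1 - kk q δ (x i) (y i)) := by
  rw [sum_nbr]
  refine Finset.sum_congr rfl ?_
  intro i _
  simp_rw [KK_update]
  rw [← Finset.mul_sum]
  congr 1
  have := sum_kk hq δ (x i)
  rw [← Finset.add_sum_erase univ _ (mem_univ (y i))] at this
  linarith

theorem sum_nbr_one (hq : 0 < q) (y : Fin d → Fin q) :
    ∑ z, (if hammingDist z y = 1 then (1 : ℝ) else 0) = (d : ℝ) * ((q : ℝ) - 1) := by
  rw [sum_nbr]
  simp only [sum_const, card_erase_of_mem (mem_univ _), card_univ, Fintype.card_fin, nsmul_eq_mul,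
    mul_one]
  rw [Nat.cast_sub hq]
  simp

theorem hasDerivAt_kk (q : ℕ) (hq : 0 < q) (a b : Fin q) (s : ℝ) :
    HasDerivAt (fun s => kk q (Real.exp (-(q : ℝ) * s)) a b)
      (1 - q * kk q (Real.exp (-(q : ℝ) * s)) a b) s := by
  have h1 : HasDerivAt (fun s : ℝ => Real.exp (-(q : ℝ) * s))
      (Real.exp (-(q : ℝ) * s) * (-(q : ℝ))) s := by
    have := (Real.hasDerivAt_exp (-(q : ℝ) * s)).comp s ((hasDerivAt_id s).const_mul (-(q : ℝ)))
    simpa [Function.comp_def] using this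
  have hq' : (q : ℝ) ≠ 0 := by positivity
  unfold kk
  split_ifs with hab
  · have h2 := ((h1.const_sub 1).div_const (q : ℝ)).add h1
    refine h2.congr_deriv ?_
    field_simp
    ring
  · have h2 := ((h1.const_sub 1).div_const (q : ℝ)).add_const 0
    refine h2.congr_deriv ?_
    field_simp
    ring

theorem hasDerivAt_KK (hq : 0 < q) (x y : Fin d → Fin q) (s : ℝ) :
    HasDerivAt (fun s => KK d q (Real.exp (-(q : ℝ) * s)) x y)
      (∑ i, (∏ j ∈ univ.erase i, kk q (Real.exp (-(q : ℝ) * s)) (x j) (y j)) *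
        (1 - q * kk q (Real.exp (-(q : ℝ) * s)) (x i) (y i))) s := by
  have := HasDerivAt.fun_finsetProd (u := (univ : Finset (Fin d)))
    (f := fun i s => kk q (Real.exp (-(q : ℝ) * s)) (x i) (y i))
    (f' := fun i => (1 - q * kk q (Real.exp (-(q : ℝ) * s)) (x i) (y i))) (x := s)
    (fun i _ => hasDerivAt_kk q hq (x i) (y i) s)
  simpa [KK, smul_eq_mul] using this

/-- The kernel solves the forward equation of the walk on the Hamming graph with unit rate
along each edge. -/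
theorem hasDerivAt_KK' (hq : 0 < q) (x y : Fin d → Fin q) (s : ℝ) :
    HasDerivAt (fun s => KK d q (Real.exp (-(q : ℝ) * s)) x y)
      ((∑ z, (if hammingDist z y = 1 then KK d q (Real.exp (-(q : ℝ) * s)) x z else 0))
        - (d : ℝ) * ((q : ℝ) - 1) * KK d q (Real.exp (-(q : ℝ) * s)) x y) s := by
  refine (hasDerivAt_KK hq x y s).congr_deriv ?_
  rw [sum_nbr_KK hq]
  set δ := Real.exp (-(q : ℝ) * s)
  have h1 : ∑ i, (∏ j ∈ univ.erase i, kk q δ (x j) (y j)) * (1 - q * kk q δ (x i) (y i))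
      = (∑ i, (∏ j ∈ univ.erase i, kk q δ (x j) (y j))) - d * q * KK d q δ x y := by
    have : ∀ i ∈ (univ : Finset (Fin d)),
        (∏ j ∈ univ.erase i, kk q δ (x j) (y j)) * (1 - q * kk q δ (x i) (y i))
        = (∏ j ∈ univ.erase i, kk q δ (x j) (y j)) - q * KK d q δ x y := by
      intro i _
      rw [KK_eq_erase δ x y i]; ring
    rw [Finset.sum_congr rfl this, Finset.sum_sub_distrib]
    simp only [sum_const, card_univ, Fintype.card_fin, nsmul_eq_mul]
    ring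
  have h2 : ∑ i, (∏ j ∈ univ.erase i, kk q δ (x j) (y j)) * (1 - kk q δ (x i) (y i))
      = (∑ i, (∏ j ∈ univ.erase i, kk q δ (x j) (y j))) - d * KK d q δ x y := by
    have : ∀ i ∈ (univ : Finset (Fin d)),
        (∏ j ∈ univ.erase i, kk q δ (x j) (y j)) * (1 - kk q δ (x i) (y i))
        = (∏ j ∈ univ.erase i, kk q δ (x j) (y j)) - KK d q δ x y := by
      intro i _
      rw [KK_eq_erase δ x y i]; ring
    rw [Finset.sum_congr rfl this, Finset.sum_sub_distrib]
    simp only [sum_const, card_univ, Fintype.card_fin, nsmul_eq_mul]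
  rw [h1, h2]
  ring

/-- Products of numbers in `[-1, 1]` that are close are close. -/
theorem abs_prod_sub_prod_le {ι : Type} (s : Finset ι) (a b : ι → ℝ) (η : ℝ)
    (ha : ∀ i ∈ s, |a i| ≤ 1) (hb : ∀ i ∈ s, |b i| ≤ 1) (hab : ∀ i ∈ s, |a i - b i| ≤ η) :
    |∏ i ∈ s, a i - ∏ i ∈ s, b i| ≤ s.card * η := by
  classical
  induction s using Finset.induction_on with
  | empty => simp
  | insert i s his ih =>
    rw [Finset.prod_insert his, Finset.prod_insert his, Finset.card_insert_of_notMem his]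
    have ih' := ih (fun j hj => ha j (mem_insert_of_mem hj)) (fun j hj => hb j (mem_insert_of_mem hj))
      (fun j hj => hab j (mem_insert_of_mem hj))
    have h1 : a i * ∏ j ∈ s, a j - b i * ∏ j ∈ s, b j
        = a i * (∏ j ∈ s, a j - ∏ j ∈ s, b j) + (a i - b i) * ∏ j ∈ s, b j := by ring
    have h2 : |∏ j ∈ s, b j| ≤ 1 := by
      rw [Finset.abs_prod]
      exact Finset.prod_le_one (fun _ _ => abs_nonneg _) (fun j hj => hb j (mem_insert_of_mem hj))
    have h3 := ha i (mem_insert_self i s)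
    have h4 := hab i (mem_insert_self i s)
    have h5 : 0 ≤ η := le_trans (abs_nonneg _) h4
    rw [h1]
    calc |a i * (∏ j ∈ s, a j - ∏ j ∈ s, b j) + (a i - b i) * ∏ j ∈ s, b j|
        ≤ |a i * (∏ j ∈ s, a j - ∏ j ∈ s, b j)| + |(a i - b i) * ∏ j ∈ s, b j| := abs_add_le _ _
      _ = |a i| * |∏ j ∈ s, a j - ∏ j ∈ s, b j| + |a i - b i| * |∏ j ∈ s, b j| := by
          rw [abs_mul, abs_mul]
      _ ≤ 1 * (s.card * η) + η * 1 := by
          gcongr
      _ = ((s.card + 1 : ℕ) : ℝ) * η := by push_cast; ring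

theorem abs_KK_sub_le (hq : 0 < q) {δ : ℝ} (h0 : 0 ≤ δ) (h1 : δ ≤ 1) (x y : Fin d → Fin q) :
    |KK d q δ x y - ((q : ℝ) ^ d)⁻¹| ≤ d * δ := by
  have hq1 : (1 : ℝ) ≤ q := by exact_mod_cast hq
  have h2 : ((q : ℝ) ^ d)⁻¹ = ∏ _i : Fin d, (q : ℝ)⁻¹ := by simp
  rw [h2]
  unfold KK
  have hqi : (q : ℝ)⁻¹ ≤ 1 := inv_le_one_of_one_le₀ hq1
  have hqi0 : 0 ≤ (q : ℝ)⁻¹ := by positivity
  have := abs_prod_sub_prod_le (univ : Finset (Fin d)) (fun i => kk q δ (x i) (y i))
    (fun _ => (q : ℝ)⁻¹) δ ?_ ?_ ?_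
  · simpa using this
  · intro i _
    rw [abs_of_nonneg (kk_nonneg h0 h1 _ _)]
    have hs := sum_kk hq δ (x i)
    rw [← hs]
    exact Finset.single_le_sum (fun b _ => kk_nonneg h0 h1 (x i) b) (mem_univ (y i))
  · intro i _
    rw [abs_of_nonneg hqi0]; exact hqi
  · intro i _
    unfold kk
    rw [abs_le]
    have h3 : (1 - δ) / (q : ℝ) = (q : ℝ)⁻¹ - δ * (q : ℝ)⁻¹ := by
      field_simp
    rw [h3]
    have h4 : δ * (q : ℝ)⁻¹ ≤ δ := by nlinarith
    have h5 : 0 ≤ δ * (q : ℝ)⁻¹ := by positivity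
    constructor <;> split_ifs <;> linarith

/-- Affinity of one coordinate with the uniform law. -/
theorem sum_sqrt_kk_le (hq : 2 ≤ q) {δ : ℝ} (h0 : 0 ≤ δ) (h1 : δ ≤ 1) (a : Fin q) :
    ∑ b, Real.sqrt (kk q δ a b * (q : ℝ)⁻¹) ≤ 1 - δ ^ 2 / 16 := by
  have hq0 : (0 : ℝ) < q := by positivity
  have hq2 : (2 : ℝ) ≤ q := by exact_mod_cast hq
  rw [← Finset.add_sum_erase univ _ (mem_univ a)]
  have h2 : ∀ b ∈ univ.erase a, Real.sqrt (kk q δ a b * (q : ℝ)⁻¹)
      ≤ (q : ℝ)⁻¹ * (1 - δ / 2 - δ ^ 2 / 8) := by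
    intro b hb
    have hb' : a ≠ b := (Finset.ne_of_mem_erase hb).symm
    unfold kk
    rw [if_neg hb']
    apply Real.sqrt_le_iff.2
    constructor
    · have : 0 ≤ 1 - δ / 2 - δ ^ 2 / 8 := by nlinarith
      positivity
    · have h3 : ((1 - δ) / (q : ℝ) + 0) * (q : ℝ)⁻¹ = ((q : ℝ)⁻¹) ^ 2 * (1 - δ) := by
        field_simp; ring
      rw [h3, mul_pow]
      have h4 : 1 - δ ≤ (1 - δ / 2 - δ ^ 2 / 8) ^ 2 := by
        have : (1 - δ / 2 - δ ^ 2 / 8) ^ 2 - (1 - δ) = δ ^ 3 / 8 + δ ^ 4 / 64 := by ring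
        have h5 : 0 ≤ δ ^ 3 / 8 + δ ^ 4 / 64 := by positivity
        linarith
      exact mul_le_mul_of_nonneg_left h4 (by positivity)
  have h3 : Real.sqrt (kk q δ a a * (q : ℝ)⁻¹) ≤ (q : ℝ)⁻¹ * (1 + δ * (q - 1) / 2) := by
    unfold kk
    rw [if_pos rfl]
    apply Real.sqrt_le_iff.2
    constructor
    · have : 0 ≤ δ * ((q : ℝ) - 1) := mul_nonneg h0 (by linarith)
      positivity
    · have h4 : ((1 - δ) / (q : ℝ) + δ) * (q : ℝ)⁻¹ = ((q : ℝ)⁻¹) ^ 2 * (1 + δ * (q - 1)) := by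
        field_simp; ring
      rw [h4, mul_pow]
      have h5 : 1 + δ * ((q : ℝ) - 1) ≤ (1 + δ * ((q : ℝ) - 1) / 2) ^ 2 := by nlinarith [sq_nonneg (δ * ((q : ℝ) - 1))]
      exact mul_le_mul_of_nonneg_left h5 (by positivity)
  have h4 := Finset.sum_le_sum h2
  rw [Finset.sum_const, card_erase_of_mem (mem_univ _), card_univ, Fintype.card_fin,
    nsmul_eq_mul, Nat.cast_sub (by omega : 1 ≤ q), Nat.cast_one] at h4
  refine le_trans (add_le_add h3 h4) ?_
  have h5 : (q : ℝ)⁻¹ * (1 + δ * (q - 1) / 2) + ((q : ℝ) - 1) * ((q : ℝ)⁻¹ * (1 - δ / 2 - δ ^ 2 / 8))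
      = 1 - (1 - (q : ℝ)⁻¹) * (δ ^ 2 / 8) := by
    field_simp
    ring
  rw [h5]
  have h6 : (q : ℝ)⁻¹ ≤ 1 / 2 := by
    rw [inv_le_comm₀ hq0 (by norm_num)]; norm_num; exact hq
  nlinarith [sq_nonneg δ]

/-- The kernel is nearly singular to the uniform law when `d δ² ` is large. -/
theorem tv_KK_ge (hq : 2 ≤ q) {δ : ℝ} (h0 : 0 ≤ δ) (h1 : δ ≤ 1) (x : Fin d → Fin q) :
    2 * (1 - Real.exp (-(d * δ ^ 2 / 16))) ≤ ∑ y, |KK d q δ x y - ((q : ℝ) ^ d)⁻¹| := by
  have hq0 : 0 < q := by omega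
  have hqr : (0 : ℝ) < q := by exact_mod_cast hq0
  have hN : 0 < ((q : ℝ) ^ d)⁻¹ := by positivity
  have h2 : ∀ y : Fin d → Fin q, KK d q δ x y + ((q : ℝ) ^ d)⁻¹
      - 2 * Real.sqrt (KK d q δ x y * ((q : ℝ) ^ d)⁻¹) ≤ |KK d q δ x y - ((q : ℝ) ^ d)⁻¹| := by
    intro y
    set u := KK d q δ x y
    set v := ((q : ℝ) ^ d)⁻¹
    have hu : 0 ≤ u := KK_nonneg h0 h1 x y
    have hv : 0 ≤ v := hN.le
    have e1 : u = Real.sqrt u ^ 2 := (Real.sq_sqrt hu).symm
    have e2 : v = Real.sqrt v ^ 2 := (Real.sq_sqrt hv).symm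
    rw [Real.sqrt_mul hu]
    have h3 : |u - v| = |Real.sqrt u - Real.sqrt v| * (Real.sqrt u + Real.sqrt v) := by
      conv_lhs => rw [e1, e2]
      rw [sq_sub_sq, abs_mul, abs_of_nonneg (add_nonneg (Real.sqrt_nonneg _) (Real.sqrt_nonneg _))]
      ring
    have h4 : |Real.sqrt u - Real.sqrt v| ≤ Real.sqrt u + Real.sqrt v := by
      rw [abs_le]
      constructor <;> linarith [Real.sqrt_nonneg u, Real.sqrt_nonneg v]
    have h5 : u + v - 2 * (Real.sqrt u * Real.sqrt v) = |Real.sqrt u - Real.sqrt v| ^ 2 := by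
      rw [sq_abs]
      nlinarith [Real.sq_sqrt hu, Real.sq_sqrt hv]
    rw [h3, h5, sq]
    exact mul_le_mul_of_nonneg_left h4 (abs_nonneg _)
  have h3 := Finset.sum_le_sum (s := univ) (fun y _ => h2 y)
  rw [Finset.sum_sub_distrib, Finset.sum_add_distrib, sum_KK hq0] at h3
  have h4 : ∑ _y : Fin d → Fin q, ((q : ℝ) ^ d)⁻¹ = 1 := by
    rw [Finset.sum_const, nsmul_eq_mul, Finset.card_univ]
    simp only [Fintype.card_pi, Fintype.card_fin, prod_const, card_univ, Nat.cast_pow]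
    field_simp
  rw [h4, ← Finset.mul_sum] at h3
  have h5 : ∑ y : Fin d → Fin q, Real.sqrt (KK d q δ x y * ((q : ℝ) ^ d)⁻¹)
      ≤ Real.exp (-(d * δ ^ 2 / 16)) := by
    have h6 : ∀ y : Fin d → Fin q, Real.sqrt (KK d q δ x y * ((q : ℝ) ^ d)⁻¹)
        = ∏ i, Real.sqrt (kk q δ (x i) (y i) * (q : ℝ)⁻¹) := by
      intro y
      have h7 : KK d q δ x y * ((q : ℝ) ^ d)⁻¹ = ∏ i, (kk q δ (x i) (y i) * (q : ℝ)⁻¹) := by
        unfold KK
        rw [Finset.prod_mul_distrib]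
        simp
      rw [h7]
      exact Real.sqrt_prod _ (fun i _ => mul_nonneg (kk_nonneg h0 h1 _ _) (by positivity))
    rw [Finset.sum_congr rfl (fun y _ => h6 y),
      sum_prod_coord (fun i b => Real.sqrt (kk q δ (x i) b * (q : ℝ)⁻¹))]
    have h8 : ∀ i ∈ (univ : Finset (Fin d)),
        ∑ b, Real.sqrt (kk q δ (x i) b * (q : ℝ)⁻¹) ≤ Real.exp (-(δ ^ 2 / 16)) := by
      intro i _
      refine le_trans (sum_sqrt_kk_le hq h0 h1 (x i)) ?_
      have := Real.add_one_le_exp (-(δ ^ 2 / 16))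
      linarith
    refine le_trans (Finset.prod_le_prod
      (fun i _ => Finset.sum_nonneg (fun b _ => Real.sqrt_nonneg _)) h8) ?_
    rw [Finset.prod_const, ← Real.exp_nat_mul, card_univ, Fintype.card_fin]
    apply le_of_eq
    congr 1
    ring
  linarith

theorem sum_abs_KK_le (hq : 0 < q) {δ : ℝ} (h0 : 0 ≤ δ) (h1 : δ ≤ 1) (x : Fin d → Fin q) :
    ∑ y, |KK d q δ x y - ((q : ℝ) ^ d)⁻¹| ≤ 2 := by
  have h4 : ∑ _y : Fin d → Fin q, ((q : ℝ) ^ d)⁻¹ = 1 := by
    have hqr : (0 : ℝ) < q := by exact_mod_cast hq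
    rw [Finset.sum_const, nsmul_eq_mul, Finset.card_univ]
    simp only [Fintype.card_pi, Fintype.card_fin, prod_const, card_univ, Nat.cast_pow]
    field_simp
  calc ∑ y, |KK d q δ x y - ((q : ℝ) ^ d)⁻¹|
      ≤ ∑ y, (KK d q δ x y + ((q : ℝ) ^ d)⁻¹) := by
        refine Finset.sum_le_sum (fun y _ => ?_)
        rw [abs_le]
        have := KK_nonneg h0 h1 x y
        have h5 : 0 ≤ ((q : ℝ) ^ d)⁻¹ := by positivity
        constructor <;> linarith
    _ = 2 := by rw [Finset.sum_add_distrib, sum_KK hq, h4]; norm_num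

end Hamming

end Pool.Agent.MP_ec2323_pr
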