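import Pool.Agent.Lib.MP_ec2323_pr.Heat
import Pool.Agent.Lib.MP_ec2323_pr.Hamming

/-!
# MP_ec2323_pr: the Hamming graph with one apex vertex
-/

set_option autoImplicit false

open Filter Topology Finset

namespace Pool.Agent.MP_ec2323_pr

section Cone

variable (d q : ℕ)

/-- Adjacency in the Hamming graph `H(d,q)` together with one extra vertex `none` joined to all
vertices of the Hamming graph. -/
def coneAdj : Option (Fin d → Fin q) → Option (Fin d → Fin q) → Prop
  | none, none => False
  | none, some _ => True
  | some _, none => True
  | some x, some y => hammingDist x y = 1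

instance : DecidableRel (coneAdj d q) := by
  intro a b
  cases a <;> cases b <;> unfold coneAdj <;> infer_instance

/-- The graph. -/
def cone : SimpleGraph (Option (Fin d → Fin q)) where
  Adj := coneAdj d q
  symm := ⟨by
    intro a b h
    cases a <;> cases b <;> simp_all [coneAdj, hammingDist_comm]⟩
  loopless := ⟨by
    intro a h
    cases a <;> simp_all [coneAdj]⟩

instance : DecidableRel (cone d q).Adj := inferInstanceAs (DecidableRel (coneAdj d q))

variable {d q}

@[simp] theorem cone_adj_none_none : (cone d q).Adj none none ↔ False := Iff.rfl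
@[simp] theorem cone_adj_none_some (y : Fin d → Fin q) : (cone d q).Adj none (some y) ↔ True :=
  Iff.rfl
@[simp] theorem cone_adj_some_none (y : Fin d → Fin q) : (cone d q).Adj (some y) none ↔ True :=
  Iff.rfl
@[simp] theorem cone_adj_some_some (x y : Fin d → Fin q) :
    (cone d q).Adj (some x) (some y) ↔ hammingDist x y = 1 := Iff.rfl

theorem cone_connected : (cone d q).Connected := by
  rw [SimpleGraph.connected_iff_exists_forall_reachable]
  refine ⟨none, ?_⟩
  intro w
  cases w with
  | none => exact SimpleGraph.Reachable.refl _
  | some y => exact SimpleGraph.Adj.reachable (by simp)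

/-- The degree in the Hamming graph, as a real number. -/
noncomputable def DD (d q : ℕ) : ℝ := (d : ℝ) * ((q : ℝ) - 1)

/-- The number of vertices of the Hamming graph, as a real number. -/
noncomputable def NN (d q : ℕ) : ℝ := (q : ℝ) ^ d

theorem degree_eq_sum {V : Type} [Fintype V] (G : SimpleGraph V) [DecidableRel G.Adj] (x : V) :
    (G.degree x : ℝ) = ∑ y, (if G.Adj x y then (1 : ℝ) else 0) := by
  rw [← Finset.sum_filter]
  simp only [sum_const, nsmul_eq_mul, mul_one]
  rw [← SimpleGraph.card_neighborFinset_eq_degree]
  congr 1
  congr 1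
  ext y
  simp

theorem degree_some (hq : 0 < q) (x : Fin d → Fin q) :
    ((cone d q).degree (some x) : ℝ) = DD d q + 1 := by
  rw [degree_eq_sum, Fintype.sum_option]
  simp only [cone_adj_some_none, if_true, cone_adj_some_some]
  have := sum_nbr_one hq x
  simp_rw [hammingDist_comm _ x] at this
  unfold DD
  rw [this]; ring

theorem degree_none : ((cone d q).degree none : ℝ) = NN d q := by
  rw [degree_eq_sum, Fintype.sum_option]
  simp [NN]

theorem two_card_edges (hq : 0 < q) :
    2 * ((cone d q).edgeFinset.card : ℝ) = NN d q * (DD d q + 2) := by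
  have h := (cone d q).sum_degrees_eq_twice_card_edges
  have h2 : (∑ v, ((cone d q).degree v : ℝ)) = 2 * ((cone d q).edgeFinset.card : ℝ) := by
    exact_mod_cast h
  rw [← h2, Fintype.sum_option]
  simp only [degree_some hq, degree_none, sum_const, nsmul_eq_mul, Finset.card_univ]
  simp only [Fintype.card_pi, Fintype.card_fin, prod_const, card_univ, Nat.cast_pow]
  unfold NN
  ring

theorem NN_pos (hq : 0 < q) : 0 < NN d q := by
  unfold NN
  have : (0 : ℝ) < q := by exact_mod_cast hq
  positivity

theorem DD_nonneg (hq : 0 < q) : 0 ≤ DD d q := by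
  unfold DD
  have : (1 : ℝ) ≤ q := by exact_mod_cast hq
  exact mul_nonneg (by positivity) (by linarith)

theorem stat_some (hq : 0 < q) (x : Fin d → Fin q) :
    statDist (cone d q) (some x) = (DD d q + 1) / (NN d q * (DD d q + 2)) := by
  unfold statDist
  rw [two_card_edges hq, degree_some hq]

theorem stat_none (hq : 0 < q) :
    statDist (cone d q) none = 1 / (DD d q + 2) := by
  unfold statDist
  rw [two_card_edges hq, degree_none]
  have h1 := NN_pos (d := d) hq
  have h2 := DD_nonneg (d := d) hq
  field_simp

theorem gen_some_some (hq : 0 < q) (x y : Fin d → Fin q) :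
    generator (cone d q) (some x) (some y)
      = (if hammingDist x y = 1 then (DD d q + 1)⁻¹ else 0) - (if x = y then 1 else 0) := by
  unfold generator jumpMatrix
  rw [Matrix.sub_apply, Matrix.of_apply, Matrix.one_apply]
  simp only [cone_adj_some_some, degree_some hq, Option.some.injEq]

theorem gen_some_none (hq : 0 < q) (x : Fin d → Fin q) :
    generator (cone d q) (some x) none = (DD d q + 1)⁻¹ := by
  unfold generator jumpMatrix
  rw [Matrix.sub_apply, Matrix.of_apply, Matrix.one_apply]
  simp only [cone_adj_some_none, degree_some hq, reduceCtorEq, if_true, if_false, sub_zero]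

theorem gen_none_some (y : Fin d → Fin q) :
    generator (cone d q) none (some y) = (NN d q)⁻¹ := by
  unfold generator jumpMatrix
  rw [Matrix.sub_apply, Matrix.of_apply, Matrix.one_apply]
  simp only [cone_adj_none_some, degree_none, reduceCtorEq, if_true, if_false, sub_zero]

theorem gen_none_none :
    generator (cone d q) none none = -1 := by
  unfold generator jumpMatrix
  rw [Matrix.sub_apply, Matrix.of_apply, Matrix.one_apply]
  simp

/-- The row of the heat kernel at a vertex of the Hamming graph. -/
noncomputable def rowF (d q : ℕ) (x : Fin d → Fin q) (t : ℝ) : Option (Fin d → Fin q) → ℝ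
  | some y => Real.exp (-(t / (DD d q + 1))) *
      (KK d q (Real.exp (-(q : ℝ) * (t / (DD d q + 1)))) x y - (NN d q)⁻¹)
      + ((DD d q + 1) + Real.exp (-((DD d q + 2) * (t / (DD d q + 1))))) / (NN d q * (DD d q + 2))
  | none => (1 - Real.exp (-((DD d q + 2) * (t / (DD d q + 1))))) / (DD d q + 2)

theorem KK_one (x y : Fin d → Fin q) : KK d q 1 x y = if x = y then 1 else 0 := by
  unfold KK kk
  simp only [sub_self, zero_div, zero_add]
  rw [Finset.prod_ite_zero]
  simp only [mem_univ, forall_const, prod_const_one]
  simp only [funext_iff]

theorem hasDerivAt_exp_lin (c t : ℝ) :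
    HasDerivAt (fun u : ℝ => Real.exp (c * u)) (Real.exp (c * t) * c) t := by
  have := (Real.hasDerivAt_exp (c * t)).comp t ((hasDerivAt_id t).const_mul c)
  simpa [Function.comp_def] using this

theorem heat_row (hq : 0 < q) (x : Fin d → Fin q) (t : ℝ) (y : Option (Fin d → Fin q)) :
    heatKernel (cone d q) t (some x) y = rowF d q x t y := by
  have hD0 := DD_nonneg (d := d) hq
  have hN0 := NN_pos (d := d) hq
  have hD1 : DD d q + 1 ≠ 0 := by positivity
  have hD2 : DD d q + 2 ≠ 0 := by positivity
  have hN : NN d q ≠ 0 := hN0.ne'
  unfold heatKernel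
  refine row_eq_of_forward ?_ ?_ t y
  · intro y
    cases y with
    | none =>
      simp [rowF]
    | some y =>
      simp only [rowF, zero_div, neg_zero, mul_zero, Real.exp_zero, one_mul, KK_one,
        Option.some.injEq]
      have : (DD d q + 1 + 1) / (NN d q * (DD d q + 2)) = (NN d q)⁻¹ := by
        field_simp; ring
      rw [this]; ring
  · intro t y
    -- sum of the row over the Hamming graph
    have hsum : ∑ z, rowF d q x t (some z)
        = ((DD d q + 1) + Real.exp (-((DD d q + 2) * (t / (DD d q + 1))))) / (DD d q + 2) := by
      simp only [rowF]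
      rw [Finset.sum_add_distrib, ← Finset.mul_sum, Finset.sum_sub_distrib, sum_KK hq]
      simp only [sum_const, nsmul_eq_mul, Finset.card_univ]
      simp only [Fintype.card_pi, Fintype.card_fin, prod_const, card_univ, Nat.cast_pow]
      have : ((q : ℝ) ^ d) = NN d q := rfl
      rw [this]
      field_simp
      ring
    set s := t / (DD d q + 1) with hs
    have hE : HasDerivAt (fun u : ℝ => Real.exp (-((DD d q + 2) * (u / (DD d q + 1)))))
        (-(Real.exp (-((DD d q + 2) * s)) * (DD d q + 2) * (DD d q + 1)⁻¹)) t := by
      have h1 := hasDerivAt_exp_lin (-(DD d q + 2) * (DD d q + 1)⁻¹) t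
      have h2 : (fun u : ℝ => Real.exp (-(DD d q + 2) * (DD d q + 1)⁻¹ * u))
          = (fun u : ℝ => Real.exp (-((DD d q + 2) * (u / (DD d q + 1))))) := by
        funext u; congr 1; field_simp
      rw [h2] at h1
      refine h1.congr_deriv ?_
      have h3 : -(DD d q + 2) * (DD d q + 1)⁻¹ * t = -((DD d q + 2) * s) := by
        rw [hs]; field_simp
      rw [h3]; ring
    cases y with
    | none =>
      rw [Fintype.sum_option]
      simp only [gen_some_none hq, gen_none_none]
      rw [← Finset.sum_mul, hsum]
      simp only [rowF]
      have h1 := (hE.const_sub 1).div_const (DD d q + 2)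
      refine h1.congr_deriv ?_
      rw [← hs]
      field_simp
      ring
    | some y =>
      rw [Fintype.sum_option]
      simp only [gen_some_some hq, gen_none_some]
      have h1 : HasDerivAt (fun u : ℝ => Real.exp (-(u / (DD d q + 1))))
          (-(Real.exp (-s) * (DD d q + 1)⁻¹)) t := by
        have h1 := hasDerivAt_exp_lin (-(DD d q + 1)⁻¹) t
        have h2 : (fun u : ℝ => Real.exp (-(DD d q + 1)⁻¹ * u))
            = (fun u : ℝ => Real.exp (-(u / (DD d q + 1)))) := by
          funext u; congr 1; field_simp
        rw [h2] at h1
        refine h1.congr_deriv ?_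
        have h3 : -(DD d q + 1)⁻¹ * t = -s := by
          rw [hs]; field_simp
        rw [h3]; ring
      have h2 : HasDerivAt (fun u : ℝ => KK d q (Real.exp (-(q : ℝ) * (u / (DD d q + 1)))) x y)
          (((∑ z, (if hammingDist z y = 1 then KK d q (Real.exp (-(q : ℝ) * s)) x z else 0))
            - DD d q * KK d q (Real.exp (-(q : ℝ) * s)) x y) * (DD d q + 1)⁻¹) t := by
        have h3 := hasDerivAt_KK' hq x y s
        have h4 : HasDerivAt (fun u : ℝ => u / (DD d q + 1)) ((DD d q + 1)⁻¹) t := by
          have := (hasDerivAt_id t).div_const (DD d q + 1)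
          refine this.congr_deriv ?_
          rw [one_div]
        have h5 := HasDerivAt.comp t (h₂ := fun s => KK d q (Real.exp (-(q : ℝ) * s)) x y) h3 h4
        simpa [Function.comp_def, DD] using h5
      have h3 := (h1.mul (h2.sub_const ((NN d q)⁻¹))).add
        ((hE.const_add (DD d q + 1)).div_const (NN d q * (DD d q + 2)))
      have hlhs : (fun u => rowF d q x u (some y)) =
          (((fun u : ℝ => Real.exp (-(u / (DD d q + 1)))) *
            (fun u : ℝ => KK d q (Real.exp (-(q : ℝ) * (u / (DD d q + 1)))) x y - (NN d q)⁻¹)) +
            fun u : ℝ => (DD d q + 1 + Real.exp (-((DD d q + 2) * (u / (DD d q + 1))))) /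
              (NN d q * (DD d q + 2))) := by
        funext u
        simp [rowF]
      rw [hlhs]
      refine h3.congr_deriv ?_
      -- now the algebra
      have h4 : ∑ z, rowF d q x t (some z) *
          ((if hammingDist z y = 1 then (DD d q + 1)⁻¹ else 0) - (if z = y then 1 else 0))
          = (DD d q + 1)⁻¹ * (Real.exp (-s) *
              ((∑ z, (if hammingDist z y = 1 then KK d q (Real.exp (-(q : ℝ) * s)) x z else 0))
                - DD d q * (NN d q)⁻¹)
              + DD d q * (((DD d q + 1) + Real.exp (-((DD d q + 2) * s))) / (NN d q * (DD d q + 2))))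
            - rowF d q x t (some y) := by
        have h5 : ∀ z, rowF d q x t (some z) *
          ((if hammingDist z y = 1 then (DD d q + 1)⁻¹ else 0) - (if z = y then 1 else 0))
          = (DD d q + 1)⁻¹ * (Real.exp (-s) *
              ((if hammingDist z y = 1 then KK d q (Real.exp (-(q : ℝ) * s)) x z else 0)
                - (if hammingDist z y = 1 then (1 : ℝ) else 0) * (NN d q)⁻¹)
              + (if hammingDist z y = 1 then (1 : ℝ) else 0) *
                (((DD d q + 1) + Real.exp (-((DD d q + 2) * s))) / (NN d q * (DD d q + 2))))
            - (if z = y then rowF d q x t (some z) else 0) := by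
          intro z
          by_cases hz : hammingDist z y = 1 <;> by_cases hzy : z = y
          · exfalso
            subst hzy
            simp at hz
          · simp only [hz, hzy, if_true, if_false, rowF, ← hs]; ring
          · subst hzy
            simp
          · simp only [hz, hzy, if_false]; ring
        rw [Finset.sum_congr rfl (fun z _ => h5 z), Finset.sum_sub_distrib, ← Finset.mul_sum,
          Finset.sum_add_distrib, ← Finset.mul_sum, Finset.sum_sub_distrib, ← Finset.sum_mul,
          ← Finset.sum_mul, sum_nbr_one hq y]
        simp only [sum_ite_eq', mem_univ, if_true]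
        rfl
      rw [h4]
      simp only [rowF, ← hs]
      field_simp
      ring

end Cone

end Pool.Agent.MP_ec2323_pr
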