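import Mathlib

/-!
# MP_ec2323_pr: definitions

Continuous-time simple random walk on a finite simple graph, total variation distance to
stationarity, mixing time from a vertex, medians of it under the stationary distribution,
relaxation time, and total variation cutoff from a stationary (typical) start.
-/

set_option autoImplicit false

open Filter Topology

namespace Pool.Agent.MP_ec2323_pr

section Defs

variable {V : Type} [Fintype V] [DecidableEq V] (G : SimpleGraph V) [DecidableRel G.Adj]

/-- The jump matrix of simple random walk on `G`: from `x` the walk jumps to each of the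
`deg x` neighbours of `x` with probability `1 / deg x`. -/
noncomputable def jumpMatrix : Matrix V V ℝ :=
  Matrix.of fun x y => if G.Adj x y then ((G.degree x : ℝ))⁻¹ else 0

/-- The generator of continuous-time simple random walk on `G` with jump rate `1`. -/
noncomputable def generator : Matrix V V ℝ := jumpMatrix G - 1

/-- The heat kernel: `heatKernel G t x y` is the probability that continuous-time simple random
walk started at `x` is at `y` at time `t`; it is the matrix exponential of `t` times the
generator. -/
noncomputable def heatKernel (t : ℝ) : Matrix V V ℝ := NormedSpace.exp (t • generator G)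

/-- The stationary distribution `π(x) = deg(x) / (2 |E|)`. -/
noncomputable def statDist (x : V) : ℝ := (G.degree x : ℝ) / (2 * (G.edgeFinset.card : ℝ))

/-- The stationary mass `π(S)` of a set of vertices. -/
noncomputable def statMass (S : Set V) : ℝ := ∑ x, S.indicator (statDist G) x

/-- Total variation distance `d_x(t)` between the law at time `t` of the walk started at `x`
and the stationary distribution. -/
noncomputable def tvDist (x : V) (t : ℝ) : ℝ :=
  (1 / 2) * ∑ y, |heatKernel G t x y - statDist G y|

/-- The mixing time `τ_x = inf {t ≥ 0 : d_x(t) ≤ 1/4}` from the vertex `x`. -/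
noncomputable def mixTime (x : V) : ℝ := sInf {t : ℝ | 0 ≤ t ∧ tvDist G x t ≤ 1 / 4}

/-- `m` is a median of `τ_x` when `x` is drawn from the stationary distribution. -/
def IsMedianMixTime (m : ℝ) : Prop :=
  1 / 2 ≤ statMass G {x | mixTime G x ≤ m} ∧ 1 / 2 ≤ statMass G {x | m ≤ mixTime G x}

/-- The spectral gap: the smallest positive eigenvalue of minus the generator. -/
noncomputable def spectralGap : ℝ :=
  sInf {μ : ℝ | 0 < μ ∧ ∃ f : V → ℝ, f ≠ 0 ∧ (generator G).mulVec f = (-μ) • f}

/-- The relaxation time: the inverse of the spectral gap. -/
noncomputable def relaxTime : ℝ := (spectralGap G)⁻¹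

end Defs

/-- Total variation cutoff from a stationary (typical) start, at the times `τ n`. -/
def HasTypicalCutoff (V : ℕ → Type) [∀ n, Fintype (V n)] [∀ n, DecidableEq (V n)]
    (G : ∀ n, SimpleGraph (V n)) [∀ n, DecidableRel (G n).Adj] (τ : ℕ → ℝ) : Prop :=
  ∀ ε : ℝ, 0 < ε → ε < 1 →
    Tendsto (fun n => statMass (G n) {x | 1 - ε < tvDist (G n) x ((1 - ε) * τ n)})
      atTop (𝓝 1) ∧
    Tendsto (fun n => statMass (G n) {x | tvDist (G n) x ((1 + ε) * τ n) < ε})
      atTop (𝓝 1)

end Pool.Agent.MP_ec2323_pr
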