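import Pool.Agent.Lib.MP_ec2323_pr.Bounds

/-!
# MP_ec2323_pr: medians and mixing times for the counterexample

The graphs are Hamming graphs `H(d, q)` with one extra vertex joined to all others.
-/

set_option autoImplicit false

open Filter Topology Finset

namespace Pool.Agent.MP_ec2323_pr

section Median

variable {V : Type} [Fintype V] [DecidableEq V] (G : SimpleGraph V) [DecidableRel G.Adj]

omit [DecidableEq V] in
theorem statDist_nonneg (x : V) : 0 ≤ statDist G x := by
  unfold statDist; positivity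

omit [DecidableEq V] in
theorem statMass_mono {S T : Set V} (h : S ⊆ T) : statMass G S ≤ statMass G T := by
  unfold statMass
  exact Finset.sum_le_sum (fun x _ =>
    Set.indicator_le_indicator_of_subset h (fun x => statDist_nonneg G x) x)

omit [DecidableEq V] in
theorem statMass_add_compl (S : Set V) : statMass G S + statMass G Sᶜ = ∑ x, statDist G x := by
  unfold statMass
  rw [← Finset.sum_add_distrib]
  refine Finset.sum_congr rfl (fun x _ => ?_)
  exact congrFun (Set.indicator_self_add_compl S (statDist G)) x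

/-- Medians exist. -/
theorem exists_median (h1 : ∑ x, statDist G x = 1) : ∃ m, IsMedianMixTime G m := by
  classical
  have hne : (univ : Finset V).Nonempty := by
    by_contra hcon
    rw [Finset.not_nonempty_iff_eq_empty] at hcon
    rw [hcon] at h1; simp at h1
  -- candidate values
  let A : Finset V := univ.filter (fun x => 1 / 2 ≤ statMass G {y | mixTime G y ≤ mixTime G x})
  have hA : A.Nonempty := by
    obtain ⟨x, _, hx⟩ := Finset.exists_max_image univ (mixTime G) hne
    refine ⟨x, ?_⟩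
    simp only [A, mem_filter, mem_univ, true_and]
    have : {y | mixTime G y ≤ mixTime G x} = Set.univ := by
      ext y; simp [hx y (mem_univ y)]
    rw [this]
    have h2 := statMass_add_compl G (Set.univ : Set V)
    have h3 : statMass G (Set.univ : Set V)ᶜ = 0 := by simp [statMass]
    rw [h3, h1] at h2
    linarith
  obtain ⟨x, hxA, hx⟩ := Finset.exists_min_image A (mixTime G) hA
  refine ⟨mixTime G x, ?_, ?_⟩
  · simpa [A] using hxA
  · by_contra hcon
    push Not at hcon
    have h2 := statMass_add_compl G {y | mixTime G x ≤ mixTime G y}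
    have h3 : {y | mixTime G x ≤ mixTime G y}ᶜ = {y | mixTime G y < mixTime G x} := by
      ext y; simp
    rw [h3, h1] at h2
    have h4 : 1 / 2 < statMass G {y | mixTime G y < mixTime G x} := by linarith
    let B : Finset V := univ.filter (fun y => mixTime G y < mixTime G x)
    have hB : B.Nonempty := by
      by_contra hB
      rw [Finset.not_nonempty_iff_eq_empty] at hB
      have h5 : {y | mixTime G y < mixTime G x} = ∅ := by
        ext y
        simp only [Set.mem_ofPred_eq, Set.mem_empty_iff_false, iff_false]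
        intro hy
        have : y ∈ B := by simp [B, hy]
        rw [hB] at this
        simp at this
      rw [h5] at h4
      simp [statMass] at h4
      linarith
    obtain ⟨z, hzB, hz⟩ := Finset.exists_max_image B (mixTime G) hB
    have hzx : mixTime G z < mixTime G x := by simpa [B] using hzB
    have hzA : z ∈ A := by
      simp only [A, mem_filter, mem_univ, true_and]
      refine le_trans h4.le (statMass_mono G ?_)
      intro y hy
      exact hz y (by simpa [B] using hy)
    exact absurd (hx z hzA) (not_le.2 hzx)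

end Median

section Final

/-- The alphabet size. -/
def qq (n : ℕ) : ℕ := n + 2

/-- The dimension. -/
def dd (n : ℕ) : ℕ := 16 * (n + 4) * 81 ^ (n + 2)

theorem qq_pos (n : ℕ) : 0 < qq n := by unfold qq; omega
theorem qq_two (n : ℕ) : 2 ≤ qq n := by unfold qq; omega

theorem dd_ge (n : ℕ) : 64 + n ≤ dd n := by
  unfold dd
  have h1 : 1 ≤ 81 ^ (n + 2) := Nat.one_le_pow _ _ (by norm_num)
  nlinarith

theorem DD_ge (n : ℕ) : (64 : ℝ) ≤ DD (dd n) (qq n) := by
  unfold DD
  have h1 : (64 : ℝ) + n ≤ (dd n : ℝ) := by exact_mod_cast dd_ge n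
  have h2 : ((qq n : ℕ) : ℝ) = n + 2 := by unfold qq; push_cast; ring
  rw [h2]
  have h3 : (0 : ℝ) ≤ n := by positivity
  nlinarith

theorem exp_four_le : Real.exp 4 ≤ 81 := by
  have h1 : Real.exp 4 = Real.exp 1 ^ 4 := by rw [← Real.exp_nat_mul]; norm_num
  rw [h1]
  have h2 : Real.exp 1 ≤ 3 := by have := Real.exp_one_lt_d9; linarith
  calc Real.exp 1 ^ 4 ≤ 3 ^ 4 := by gcongr
    _ = 81 := by norm_num

theorem exponent_ge (n : ℕ) {s : ℝ} (hs2 : s ≤ 2) :
    4 ≤ (dd n : ℝ) * (Real.exp (-(qq n : ℝ) * s)) ^ 2 / 16 := by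
  have h1 : (dd n : ℝ) = 16 * (n + 4) * 81 ^ (qq n) := by unfold dd qq; push_cast; ring
  have h2 : (Real.exp (-(qq n : ℝ) * s)) ^ 2 = Real.exp (-(2 * s * qq n)) := by
    rw [← Real.exp_nat_mul]; congr 1; push_cast; ring
  have h3 : Real.exp (-(4 * (qq n : ℝ))) ≤ Real.exp (-(2 * s * qq n)) := by
    apply Real.exp_le_exp.2
    have : (0 : ℝ) ≤ qq n := by positivity
    nlinarith
  have h4 : Real.exp (-(4 * (qq n : ℝ))) = (Real.exp 4 ^ (qq n))⁻¹ := by
    rw [Real.exp_neg, ← Real.exp_nat_mul]; congr 2; ring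
  have h5 : Real.exp 4 ^ (qq n) ≤ 81 ^ (qq n) := by
    have := exp_four_le
    gcongr
  have h6 : (1 : ℝ) ≤ 81 ^ (qq n) * Real.exp (-(2 * s * qq n)) := by
    calc (1 : ℝ) = 81 ^ (qq n) * ((81 : ℝ) ^ (qq n))⁻¹ := by field_simp
      _ ≤ 81 ^ (qq n) * (Real.exp 4 ^ (qq n))⁻¹ := by gcongr
      _ ≤ 81 ^ (qq n) * Real.exp (-(2 * s * qq n)) := by rw [← h4]; gcongr
  rw [h1, h2]
  have h7 : (16 : ℝ) * (n + 4) * 81 ^ (qq n) * Real.exp (-(2 * s * qq n)) / 16
      = (n + 4) * (81 ^ (qq n) * Real.exp (-(2 * s * qq n))) := by ring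
  rw [h7]
  have h8 : (0 : ℝ) ≤ n := by positivity
  nlinarith

/-- The graphs of the counterexample. -/
abbrev VV (n : ℕ) : Type := Option (Fin (dd n) → Fin (qq n))

/-- The graphs of the counterexample. -/
abbrev GG (n : ℕ) : SimpleGraph (VV n) := cone (dd n) (qq n)

theorem tv_ge_late (n : ℕ) (x : Fin (dd n) → Fin (qq n)) {t : ℝ} (ht : 0 ≤ t)
    (ht2 : t / (DD (dd n) (qq n) + 1) ≤ 2) :
    Real.exp (-(t / (DD (dd n) (qq n) + 1))) * (49 / 50) ≤ tvDist (GG n) (some x) t := by
  refine le_trans ?_ (tv_lower (qq_two n) x ht)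
  have h1 := exponent_ge n ht2
  have h2 : Real.exp (-((dd n : ℝ) * (Real.exp (-(qq n : ℝ) * (t / (DD (dd n) (qq n) + 1)))) ^ 2 / 16))
      ≤ Real.exp (-4) := by
    apply Real.exp_le_exp.2; linarith
  have h3 : Real.exp (-4) ≤ 1 / 50 := by
    rw [Real.exp_neg, inv_eq_one_div]
    have h4 : (50 : ℝ) ≤ Real.exp 4 := by
      have h5 : Real.exp 4 = Real.exp 1 ^ 4 := by rw [← Real.exp_nat_mul]; norm_num
      rw [h5]
      have h6 : (2.7 : ℝ) ≤ Real.exp 1 := by have := Real.exp_one_gt_d9; linarith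
      calc (50 : ℝ) ≤ 2.7 ^ 4 := by norm_num
        _ ≤ Real.exp 1 ^ 4 := by gcongr
    gcongr
  have h4 : 0 < Real.exp (-(t / (DD (dd n) (qq n) + 1))) := Real.exp_pos _
  apply mul_le_mul_of_nonneg_left _ h4.le
  linarith

theorem mixTime_ge (n : ℕ) (x : Fin (dd n) → Fin (qq n)) :
    DD (dd n) (qq n) + 1 ≤ mixTime (GG n) (some x) ∧
    mixTime (GG n) (some x) ≤ 3 / 2 * (DD (dd n) (qq n) + 1) := by
  have hD := DD_ge n
  have hmem : 3 / 2 * (DD (dd n) (qq n) + 1) ∈
      {t : ℝ | 0 ≤ t ∧ tvDist (GG n) (some x) t ≤ 1 / 4} := by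
    have h0 : 0 ≤ 3 / 2 * (DD (dd n) (qq n) + 1) := by positivity
    refine ⟨h0, ?_⟩
    refine le_trans (tv_upper (qq_pos n) x h0) ?_
    have h1 : 3 / 2 * (DD (dd n) (qq n) + 1) / (DD (dd n) (qq n) + 1) = 3 / 2 := by
      field_simp
    rw [h1]
    have h2 : Real.exp (-(3 / 2)) ≤ 10 / 43 := by
      rw [Real.exp_neg]
      have h3 : (43 / 10 : ℝ) ≤ Real.exp (3 / 2) := by
        have h4 : Real.exp (3 / 2) ^ 2 = Real.exp 1 ^ 3 := by
          rw [← Real.exp_nat_mul, ← Real.exp_nat_mul]; norm_num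
        have h5 : (2.7 : ℝ) ≤ Real.exp 1 := by have := Real.exp_one_gt_d9; linarith
        have h6 : (43 / 10 : ℝ) ^ 2 ≤ Real.exp (3 / 2) ^ 2 := by
          rw [h4]
          calc (43 / 10 : ℝ) ^ 2 ≤ 2.7 ^ 3 := by norm_num
            _ ≤ Real.exp 1 ^ 3 := by gcongr
        exact le_of_sq_le_sq h6 (Real.exp_pos _).le
      calc (Real.exp (3 / 2))⁻¹ ≤ (43 / 10 : ℝ)⁻¹ := by gcongr
        _ = 10 / 43 := by norm_num
    have h3 : 1 / (DD (dd n) (qq n) + 2) ≤ 1 / 66 := by
      gcongr
      linarith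
    have h4 : (10 : ℝ) / 43 + 1 / 66 ≤ 1 / 4 := by norm_num
    linarith
  unfold mixTime
  constructor
  · refine le_csInf ⟨_, hmem⟩ ?_
    rintro t ⟨ht0, ht⟩
    by_contra hlt
    push Not at hlt
    have h1 : t / (DD (dd n) (qq n) + 1) ≤ 1 := by
      rw [div_le_one (by positivity)]; exact hlt.le
    have h2 := tv_ge_late n x ht0 (by linarith)
    have h3 : Real.exp (-1) ≤ Real.exp (-(t / (DD (dd n) (qq n) + 1))) := by
      apply Real.exp_le_exp.2; linarith
    have h4 : (1 / 3 : ℝ) ≤ Real.exp (-1) := by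
      rw [Real.exp_neg]
      have : Real.exp 1 ≤ 3 := by have := Real.exp_one_lt_d9; linarith
      calc (1 / 3 : ℝ) = (3 : ℝ)⁻¹ := by norm_num
        _ ≤ (Real.exp 1)⁻¹ := by gcongr
    have h5 : (1 / 3 : ℝ) * (49 / 50) ≤ 1 / 4 := by
      calc (1 / 3 : ℝ) * (49 / 50)
          ≤ Real.exp (-(t / (DD (dd n) (qq n) + 1))) * (49 / 50) := by
            apply mul_le_mul_of_nonneg_right _ (by norm_num); linarith
        _ ≤ 1 / 4 := le_trans h2 ht
    norm_num at h5
  · exact csInf_le ⟨0, fun t ht => ht.1⟩ hmem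

theorem stat_none_le (n : ℕ) : statDist (GG n) none ≤ 1 / 66 := by
  rw [stat_none (qq_pos n)]
  have := DD_ge n
  gcongr
  linarith

theorem statMass_le_of_no_some (n : ℕ) {S : Set (VV n)} (h : ∀ x, some x ∉ S) :
    statMass (GG n) S ≤ 1 / 66 := by
  unfold statMass
  rw [Fintype.sum_option]
  have h1 : ∑ x : Fin (dd n) → Fin (qq n), S.indicator (statDist (GG n)) (some x) = 0 := by
    refine Finset.sum_eq_zero (fun x _ => ?_)
    rw [Set.indicator_of_notMem (h x)]
  rw [h1, add_zero]
  have h2 := stat_none_le n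
  by_cases h3 : (none : VV n) ∈ S
  · rw [Set.indicator_of_mem h3]; exact h2
  · rw [Set.indicator_of_notMem h3]; norm_num

theorem median_bounds (n : ℕ) {m : ℝ} (hm : IsMedianMixTime (GG n) m) :
    DD (dd n) (qq n) + 1 ≤ m ∧ m ≤ 3 / 2 * (DD (dd n) (qq n) + 1) := by
  constructor
  · by_contra hcon
    push Not at hcon
    have h1 := statMass_le_of_no_some n (S := {x | mixTime (GG n) x ≤ m}) (fun x hx => by
      have h2 := (mixTime_ge n x).1
      simp only [Set.mem_ofPred_eq] at hx
      linarith)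
    have h2 := hm.1
    norm_num at h1 h2
    linarith
  · by_contra hcon
    push Not at hcon
    have h1 := statMass_le_of_no_some n (S := {x | m ≤ mixTime (GG n) x}) (fun x hx => by
      have h2 := (mixTime_ge n x).2
      simp only [Set.mem_ofPred_eq] at hx
      linarith)
    have h2 := hm.2
    norm_num at h1 h2
    linarith

theorem sum_stat (n : ℕ) : ∑ x, statDist (GG n) x = 1 := by
  have hq := qq_pos n
  have hN0 := NN_pos (d := dd n) hq
  have hD0 := DD_nonneg (d := dd n) hq
  rw [Fintype.sum_option, stat_none hq]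
  simp only [stat_some hq]
  rw [sum_const_NN hq]
  field_simp
  ring

theorem card_tendsto : Tendsto (fun n => Fintype.card (VV n)) atTop atTop := by
  refine tendsto_atTop_mono (fun n => ?_) tendsto_id
  simp only [Fintype.card_option, Fintype.card_pi, Fintype.card_fin, prod_const, card_univ, id]
  have h1 : dd n < qq n ^ dd n := Nat.lt_pow_self (by unfold qq; omega)
  have h2 := dd_ge n
  omega

end Final

end Pool.Agent.MP_ec2323_pr
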