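import Pool.Agent.Lib.MP_ec2323_pr.Defs

/-!
# MP_ec2323_pr: two general facts on the heat kernel
-/

set_option autoImplicit false

open Filter Topology Matrix

namespace Pool.Agent.MP_ec2323_pr

section Heat

variable {V : Type} [Fintype V] [DecidableEq V]

open scoped Matrix.Norms.Operator

theorem eq_of_forward {L : Matrix V V ℝ} {R : ℝ → Matrix V V ℝ}
    (h : ∀ t, HasDerivAt R (R t * L) t) (t : ℝ) :
    R t = R 0 * NormedSpace.exp (t • L) := by
  have h1 : ∀ t : ℝ, HasDerivAt (fun u : ℝ => R u * NormedSpace.exp (u • (-L))) 0 t := by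
    intro t
    have h2 := (h t).mul (hasDerivAt_exp_smul_const' (𝕂 := ℝ) (-L) t)
    refine h2.congr_deriv ?_
    have h3 : R t * L * NormedSpace.exp (t • (-L)) + R t * (-L * NormedSpace.exp (t • (-L))) = 0 := by
      rw [neg_mul, mul_neg, mul_assoc]; simp
    exact h3
  have h4 : ∀ t : ℝ, R t * NormedSpace.exp (t • (-L)) = R 0 := by
    intro t
    have h5 := is_const_of_deriv_eq_zero (f := fun u : ℝ => R u * NormedSpace.exp (u • (-L)))
      (fun u => (h1 u).differentiableAt) (fun u => (h1 u).deriv) t 0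
    simpa using h5
  have h6 : NormedSpace.exp (t • (-L)) * NormedSpace.exp (t • L) = 1 := by
    rw [← Matrix.exp_add_of_commute]
    · simp
    · rw [smul_neg]
      exact (Commute.refl (t • L)).neg_left
  calc R t = R t * (NormedSpace.exp (t • (-L)) * NormedSpace.exp (t • L)) := by rw [h6, mul_one]
    _ = R 0 * NormedSpace.exp (t • L) := by rw [← mul_assoc, h4]

/-- The row `x` of the heat kernel is determined by the forward equation. -/
theorem row_eq_of_forward {L : Matrix V V ℝ} {r : ℝ → V → ℝ} {x : V}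
    (h0 : ∀ y, r 0 y = if x = y then 1 else 0)
    (h : ∀ t y, HasDerivAt (fun u => r u y) (∑ z, r t z * L z y) t) (t : ℝ) (y : V) :
    NormedSpace.exp (t • L) x y = r t y := by
  have h1 : ∀ t, HasDerivAt (fun u => (Matrix.of fun _ y => r u y : Matrix V V ℝ))
      ((Matrix.of fun _ y => r t y : Matrix V V ℝ) * L) t := by
    intro t
    refine hasDerivAt_pi.2 (fun i => ?_)
    refine hasDerivAt_pi.2 (fun y => ?_)
    have := h t y
    simpa [Matrix.mul_apply] using this
  have h2 := eq_of_forward h1 t
  have h3 := congrFun (congrFun h2 x) y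
  rw [Matrix.mul_apply] at h3
  simp only [Matrix.of_apply, h0] at h3
  rw [h3]
  simp

/-- Eigenfunctions of the generator are eigenfunctions of the heat kernel. -/
theorem exp_mulVec_of_eigen {L : Matrix V V ℝ} {f : V → ℝ} {μ : ℝ}
    (h : L.mulVec f = (-μ) • f) (t : ℝ) :
    (NormedSpace.exp (t • L)).mulVec f = Real.exp (-μ * t) • f := by
  have hF : ∀ M : Matrix V V ℝ, ∀ x y, (M * (Matrix.of fun y _ => f y : Matrix V V ℝ)) x y
      = M.mulVec f x := by
    intro M x y
    rw [Matrix.mul_apply]
    rfl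
  have hLF : L * (Matrix.of fun y _ => f y : Matrix V V ℝ)
      = (-μ) • (Matrix.of fun y _ => f y : Matrix V V ℝ) := by
    ext x y
    rw [hF, h]
    rfl
  set F : Matrix V V ℝ := Matrix.of fun y _ => f y with hFdef
  have h1 : ∀ t : ℝ, HasDerivAt (fun u : ℝ => Real.exp (μ * u) • (NormedSpace.exp (u • L) * F)) 0 t := by
    intro t
    have h2 := (hasDerivAt_exp_smul_const (𝕂 := ℝ) L t).mul_const F
    have h3 : HasDerivAt (fun u : ℝ => Real.exp (μ * u)) (Real.exp (μ * t) * μ) t := by
      have := (Real.hasDerivAt_exp (μ * t)).comp t ((hasDerivAt_id t).const_mul μ)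
      simpa [Function.comp_def] using this
    have h4 := h3.smul h2
    refine h4.congr_deriv ?_
    have h5 : Real.exp (μ * t) • (NormedSpace.exp (t • L) * L * F)
        + (Real.exp (μ * t) * μ) • (NormedSpace.exp (t • L) * F) = 0 := by
      rw [mul_assoc, hLF, Matrix.mul_smul, smul_smul, ← add_smul]
      ring_nf
      simp
    exact h5
  have h5 := is_const_of_deriv_eq_zero (f := fun u : ℝ => Real.exp (μ * u) • (NormedSpace.exp (u • L) * F))
      (fun u => (h1 u).differentiableAt) (fun u => (h1 u).deriv) t 0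
  simp only [mul_zero, Real.exp_zero, one_smul, zero_smul, NormedSpace.exp_zero, one_mul] at h5
  funext x
  have h6 := congrFun (congrFun h5 x) x
  rw [Matrix.smul_apply, hF] at h6
  simp only [smul_eq_mul, hFdef, Matrix.of_apply] at h6
  simp only [Pi.smul_apply, smul_eq_mul]
  rw [← h6, ← mul_assoc, ← Real.exp_add]
  ring_nf
  simp

end Heat

end Pool.Agent.MP_ec2323_pr
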